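import Mathlib

/-!
# TANK W, row CT, j = 1: the twisted layer lemma, statements

`S = {(s,c)}` with the law `(s,c) * (s',c') = (s + s', c + c' + Λ(s,s'))`, `Λ(s,0) = Λ(0,s) = 0`.
* `wt w0 w1 m` : weight of a monomial in `(s,c)`;
* `mulS Λ N` : `N(x * g)`, variables `Sum.inl` = `x`, `Sum.inr` = `g`;
* `PP κ t y = ∑ κ i y ^ p ^ (i + 1)`.
-/

set_option autoImplicit false

open MvPolynomial

namespace Pool.Agent.TWLY76

variable {k : Type*} [Field k]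

/-- The weight of an exponent. -/
noncomputable def wt (w0 w1 : ℝ) (m : Fin 2 →₀ ℕ) : ℝ := m 0 * w0 + m 1 * w1

/-- The inner weight. -/
noncomputable def wtx (w0 w1 : ℝ) (m : Fin 2 ⊕ Fin 2 →₀ ℕ) : ℝ := m (.inl 0) * w0 + m (.inl 1) * w1

/-- The outer weight. -/
noncomputable def wtg (w0 w1 : ℝ) (m : Fin 2 ⊕ Fin 2 →₀ ℕ) : ℝ := m (.inr 0) * w0 + m (.inr 1) * w1

/-- The product of `x` and `g`. -/
noncomputable def law (Λ : MvPolynomial (Fin 2) k) : Fin 2 → MvPolynomial (Fin 2 ⊕ Fin 2) k :=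
  ![X (.inl 0) + X (.inr 0), X (.inl 1) + X (.inr 1) + aeval ![X (.inl 0), X (.inr 0)] Λ]

/-- `N(x * g)`. -/
noncomputable def mulS (Λ : MvPolynomial (Fin 2) k) :
    MvPolynomial (Fin 2) k →ₐ[k] MvPolynomial (Fin 2 ⊕ Fin 2) k := aeval (law Λ)

/-- `N(x)`. -/
noncomputable def inX : MvPolynomial (Fin 2) k →ₐ[k] MvPolynomial (Fin 2 ⊕ Fin 2) k := rename Sum.inl

/-- `N(g)`. -/
noncomputable def inG : MvPolynomial (Fin 2) k →ₐ[k] MvPolynomial (Fin 2 ⊕ Fin 2) k := rename Sum.inr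

/-- `∑ κ i y ^ p ^ (i + 1)`. -/
noncomputable def PP {R : Type*} [CommRing R] [Algebra k R] (p : ℕ) (κ : ℕ → k) (t : ℕ) (y : R) : R :=
  ∑ i ∈ Finset.range (t + 1), algebraMap k R (κ i) * y ^ p ^ (i + 1)

/-- `Λ(s,0) = Λ(0,s) = 0`, in coefficients. -/
def LNor (Λ : MvPolynomial (Fin 2) k) : Prop := ∀ m ∈ Λ.support, m 0 ≠ 0 ∧ m 1 ≠ 0

/-- **(T2)** 60's (E2) at the top weight `d` of `G`. -/
def E2Stmt : Prop :=
  ∀ (k : Type) [Field k] (p : ℕ) [Fact p.Prime] [CharP k p] (w0 w1 B d : ℝ) (t : ℕ) (κ : ℕ → k)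
    (Λ G : MvPolynomial (Fin 2) k) (lam : MvPolynomial (Fin 2 ⊕ Fin 2) k),
    0 < w0 → w0 ≤ w1 → 0 ≤ B → κ t ≠ 0 → LNor Λ → (∀ m ∈ Λ.support, (m 0 + m 1 : ℝ) * w0 ≤ w1) →
    (∀ m, B < wtx w0 w1 m → coeff m (mulS Λ G - inX G - inG G + PP p κ t lam) = 0) →
    (∀ m ∈ G.support, wt w0 w1 m ≤ d) → (∃ m ∈ G.support, wt w0 w1 m = d) →
    (∀ m ∈ G.support, wt w0 w1 m = d → ¬ (p ^ (t + 1) ∣ m 0 ∧ p ^ (t + 1) ∣ m 1)) →
    d ≤ 2 * B ∨ d ≤ p ^ t * w1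

end Pool.Agent.TWLY76
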