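import Pool.Agent.Lib.TWLY76.Defs

/-!
# TANK W, row CT, j = 1: the twisted layer lemma, the top form of `G` (T2)

`e2_gen`: if all the coefficients of inner weight `> B` of `G(x*g) - G(x) - G(g) + PP lam` vanish and
no monomial of top weight `d` of `G` is a `p ^ (t + 1)`-th power, then `d ≤ 2 B` or `d ≤ p ^ t w₁`.
-/

set_option autoImplicit false

open MvPolynomial

namespace Pool.Agent.TWLY76

variable {k : Type*} [Field k]

/-! ### Weights -/

/-- The total weight. -/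
noncomputable def wtt (w0 w1 : ℝ) (m : Fin 2 ⊕ Fin 2 →₀ ℕ) : ℝ := wtx w0 w1 m + wtg w0 w1 m

section

variable {w0 w1 : ℝ}

theorem wtx_add (a b : Fin 2 ⊕ Fin 2 →₀ ℕ) : wtx w0 w1 (a + b) = wtx w0 w1 a + wtx w0 w1 b := by
  simp only [wtx, Finsupp.add_apply, Nat.cast_add]
  ring

theorem wtg_add (a b : Fin 2 ⊕ Fin 2 →₀ ℕ) : wtg w0 w1 (a + b) = wtg w0 w1 a + wtg w0 w1 b := by
  simp only [wtg, Finsupp.add_apply, Nat.cast_add]
  ring

theorem wtt_add (a b : Fin 2 ⊕ Fin 2 →₀ ℕ) : wtt w0 w1 (a + b) = wtt w0 w1 a + wtt w0 w1 b := by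
  rw [wtt, wtt, wtt, wtx_add, wtg_add]
  ring

theorem wtx_smul (n : ℕ) (a : Fin 2 ⊕ Fin 2 →₀ ℕ) : wtx w0 w1 (n • a) = n * wtx w0 w1 a := by
  simp only [wtx, Finsupp.smul_apply, smul_eq_mul, Nat.cast_mul]
  ring

theorem wtg_smul (n : ℕ) (a : Fin 2 ⊕ Fin 2 →₀ ℕ) : wtg w0 w1 (n • a) = n * wtg w0 w1 a := by
  simp only [wtg, Finsupp.smul_apply, smul_eq_mul, Nat.cast_mul]
  ring

theorem wtt_smul (n : ℕ) (a : Fin 2 ⊕ Fin 2 →₀ ℕ) : wtt w0 w1 (n • a) = n * wtt w0 w1 a := by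
  rw [wtt, wtt, wtx_smul, wtg_smul]
  ring

theorem wtg_nonneg (h0 : 0 ≤ w0) (h1 : 0 ≤ w1) (a : Fin 2 ⊕ Fin 2 →₀ ℕ) : 0 ≤ wtg w0 w1 a := by
  unfold wtg
  positivity

/-- All the monomials have weight `≤ D`. -/
def WLe (w0 w1 D : ℝ) (P : MvPolynomial (Fin 2 ⊕ Fin 2) k) : Prop :=
  ∀ m, coeff m P ≠ 0 → wtt w0 w1 m ≤ D

theorem WLe.add {D : ℝ} {P R : MvPolynomial (Fin 2 ⊕ Fin 2) k} (hP : WLe w0 w1 D P)
    (hR : WLe w0 w1 D R) : WLe w0 w1 D (P + R) := by
  intro m hm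
  rw [coeff_add] at hm
  by_cases h : coeff m P = 0
  · rw [h, zero_add] at hm
    exact hR m hm
  · exact hP m h

theorem WLe.mul {D E : ℝ} {P R : MvPolynomial (Fin 2 ⊕ Fin 2) k} (hP : WLe w0 w1 D P)
    (hR : WLe w0 w1 E R) : WLe w0 w1 (D + E) (P * R) := by
  classical
  intro m hm
  rw [coeff_mul] at hm
  obtain ⟨⟨a, b⟩, hab, h⟩ := Finset.exists_ne_zero_of_sum_ne_zero hm
  replace hab := Finset.HasAntidiagonal.mem_antidiagonal.1 hab
  simp only at hab h
  rw [← hab, wtt_add]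
  exact add_le_add (hP a (left_ne_zero_of_mul h)) (hR b (right_ne_zero_of_mul h))

theorem WLe.one : WLe w0 w1 0 (1 : MvPolynomial (Fin 2 ⊕ Fin 2) k) := by
  classical
  intro m hm
  rw [coeff_one] at hm
  have h1 : (0 : Fin 2 ⊕ Fin 2 →₀ ℕ) = m := by
    by_contra h
    rw [if_neg h] at hm
    exact hm rfl
  rw [← h1]
  simp [wtt, wtx, wtg]

theorem WLe.pow {D : ℝ} {P : MvPolynomial (Fin 2 ⊕ Fin 2) k} (hP : WLe w0 w1 D P) (n : ℕ) :
    WLe w0 w1 (n * D) (P ^ n) := by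
  induction n with
  | zero => simpa using WLe.one (w0 := w0) (w1 := w1) (k := k)
  | succ n ih =>
    rw [pow_succ]
    have h1 := ih.mul hP
    have h2 : (n : ℝ) * D + D = ((n + 1 : ℕ) : ℝ) * D := by push_cast; ring
    rwa [h2] at h1

theorem WLe.C (c : k) : WLe w0 w1 0 (MvPolynomial.C c : MvPolynomial (Fin 2 ⊕ Fin 2) k) := by
  classical
  intro m hm
  rw [coeff_C] at hm
  have h1 : (0 : Fin 2 ⊕ Fin 2 →₀ ℕ) = m := by
    by_contra h
    rw [if_neg h] at hm
    exact hm rfl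
  rw [← h1]
  simp [wtt, wtx, wtg]

theorem WLe.X (i : Fin 2 ⊕ Fin 2) :
    WLe w0 w1 (wtt w0 w1 (Finsupp.single i 1)) (MvPolynomial.X i : MvPolynomial (Fin 2 ⊕ Fin 2) k) := by
  classical
  intro m hm
  rw [coeff_X] at hm
  have h1 : Finsupp.single i 1 = m := by
    by_contra h
    rw [if_neg h] at hm
    exact hm rfl
  rw [h1]

end

/-! ### Frobenius -/

section

variable {σ : Type*} (p : ℕ) [hp : Fact p.Prime] [CharP k p]

theorem pow_char_eq_sum (n : ℕ) (f : MvPolynomial σ k) :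
    f ^ p ^ n = ∑ m ∈ f.support, monomial (p ^ n • m) ((coeff m f) ^ p ^ n) := by
  have : ExpChar (MvPolynomial σ k) p := ExpChar.prime hp.out
  conv_lhs => rw [f.as_sum]
  rw [sum_pow_char_pow]
  exact Finset.sum_congr rfl fun m _ => by rw [monomial_pow]

theorem coeff_pow_smul (n : ℕ) (f : MvPolynomial σ k) (m : σ →₀ ℕ) :
    coeff (p ^ n • m) (f ^ p ^ n) = (coeff m f) ^ p ^ n := by
  classical
  rw [pow_char_eq_sum p n f, coeff_sum]
  simp only [coeff_monomial]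
  have hq : p ^ n ≠ 0 := pow_ne_zero _ hp.out.ne_zero
  by_cases hm : m ∈ f.support
  · rw [Finset.sum_eq_single_of_mem m hm, if_pos rfl]
    intro b _ hb
    rw [if_neg]
    intro h
    apply hb
    ext i
    have := DFunLike.congr_fun h i
    simp only [Finsupp.smul_apply, smul_eq_mul] at this
    exact Nat.eq_of_mul_eq_mul_left (Nat.pos_of_ne_zero hq) this
  · rw [Finset.sum_eq_zero, notMem_support_iff.1 hm, zero_pow hq]
    intro b hb
    rw [if_neg]
    intro h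
    apply hm
    have : b = m := by
      ext i
      have := DFunLike.congr_fun h i
      simp only [Finsupp.smul_apply, smul_eq_mul] at this
      exact Nat.eq_of_mul_eq_mul_left (Nat.pos_of_ne_zero hq) this
    rwa [← this]

theorem exists_of_coeff_pow_ne (n : ℕ) (f : MvPolynomial σ k) {m : σ →₀ ℕ}
    (h : coeff m (f ^ p ^ n) ≠ 0) : ∃ m', m = p ^ n • m' ∧ coeff m' f ≠ 0 := by
  classical
  rw [pow_char_eq_sum p n f, coeff_sum] at h
  obtain ⟨b, hb, h1⟩ := Finset.exists_ne_zero_of_sum_ne_zero h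
  rw [coeff_monomial] at h1
  have h2 : p ^ n • b = m := by
    by_contra h2
    rw [if_neg h2] at h1
    exact h1 rfl
  exact ⟨b, h2.symm, mem_support_iff.1 hb⟩

/-- A coefficient of `PP`. -/
theorem exists_of_coeff_PP_ne {κ : ℕ → k} {t : ℕ} {f : MvPolynomial σ k} {m : σ →₀ ℕ}
    (h : coeff m (PP p κ t f) ≠ 0) :
    ∃ i, i ≤ t ∧ ∃ m', m = p ^ (i + 1) • m' ∧ coeff m' f ≠ 0 := by
  classical
  rw [PP, coeff_sum] at h
  obtain ⟨i, hi, h1⟩ := Finset.exists_ne_zero_of_sum_ne_zero h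
  rw [algebraMap_eq, coeff_C_mul] at h1
  obtain ⟨m', h2, h3⟩ := exists_of_coeff_pow_ne p (i + 1) f (right_ne_zero_of_mul h1)
  exact ⟨i, Nat.lt_succ_iff.1 (Finset.mem_range.1 hi), m', h2, h3⟩

end

/-! ### Step (a), (b): the coefficients of `dG` -/

section

variable (p : ℕ) [hp : Fact p.Prime] [CharP k p] {w0 w1 B d : ℝ} {t : ℕ} {κ : ℕ → k}
  {D lam : MvPolynomial (Fin 2 ⊕ Fin 2) k}

/-- **(a)** the monomials of `lam` of inner weight `> B / Q` have `Q wt ≤ d`. -/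
theorem stepA (h0 : 0 ≤ w0) (h1 : 0 ≤ w1) (hB : 0 ≤ B) (hκ : κ t ≠ 0)
    (hD : ∀ m, B < wtx w0 w1 m → coeff m (D + PP p κ t lam) = 0) (hd : WLe w0 w1 d D)
    {m : Fin 2 ⊕ Fin 2 →₀ ℕ} (hm : coeff m lam ≠ 0) (hw : B < (p : ℝ) ^ (t + 1) * wtx w0 w1 m) :
    (p : ℝ) ^ (t + 1) * wtt w0 w1 m ≤ d := by
  classical
  have hp1 : (1 : ℝ) < p := by exact_mod_cast hp.out.one_lt
  set S := lam.support.filter fun m => B < (p : ℝ) ^ (t + 1) * wtx w0 w1 m with hS
  have hmS : m ∈ S := by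
    rw [hS, Finset.mem_filter]
    exact ⟨mem_support_iff.2 hm, hw⟩
  obtain ⟨a, ha, hmax⟩ := S.exists_max_image (wtt w0 w1) ⟨m, hmS⟩
  have ha2 := (Finset.mem_filter.1 ha).2
  have ha1 := mem_support_iff.1 (Finset.mem_filter.1 ha).1
  have hQ : (0 : ℝ) < (p : ℝ) ^ (t + 1) := by positivity
  have hax : 0 < wtx w0 w1 a := by
    by_contra h
    push Not at h
    have := mul_nonpos_of_nonneg_of_nonpos hQ.le h
    linarith
  have hat : 0 < wtt w0 w1 a := add_pos_of_pos_of_nonneg hax (wtg_nonneg h0 h1 a)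
  by_contra hcon
  push Not at hcon
  have h2 : d < (p : ℝ) ^ (t + 1) * wtt w0 w1 a :=
    hcon.trans_le (mul_le_mul_of_nonneg_left (hmax m hmS) hQ.le)
  have h3 : coeff (p ^ (t + 1) • a) D = 0 := by
    by_contra h
    have := hd _ h
    rw [wtt_smul] at this
    push_cast at this
    linarith
  have h4 := hD (p ^ (t + 1) • a) (by rw [wtx_smul]; push_cast; exact ha2)
  rw [coeff_add, h3, zero_add, PP, coeff_sum, Finset.sum_eq_single_of_mem t
    (Finset.mem_range.2 (Nat.lt_succ_self t)), algebraMap_eq, coeff_C_mul,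
    coeff_pow_smul p (t + 1) lam a] at h4
  · exact mul_ne_zero hκ (pow_ne_zero _ ha1) h4
  · intro i hi hit
    rw [algebraMap_eq, coeff_C_mul]
    by_contra h5
    obtain ⟨m', h6, h7⟩ := exists_of_coeff_pow_ne p (i + 1) lam (right_ne_zero_of_mul h5)
    have hlt : i < t := lt_of_le_of_ne (Nat.lt_succ_iff.1 (Finset.mem_range.1 hi)) hit
    obtain ⟨j, rfl⟩ : ∃ j, t = i + (j + 1) := ⟨t - i - 1, by omega⟩
    have h8 : m' = p ^ (j + 1) • a := by
      ext x
      have := DFunLike.congr_fun h6 x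
      simp only [Finsupp.smul_apply, smul_eq_mul] at this ⊢
      have e1 : i + (j + 1) + 1 = (i + 1) + (j + 1) := by ring
      rw [e1, pow_add, mul_assoc] at this
      exact (Nat.eq_of_mul_eq_mul_left (pow_pos hp.out.pos _) this).symm
    have h9 : (1 : ℝ) < (p : ℝ) ^ (j + 1) := one_lt_pow₀ hp1 (Nat.succ_ne_zero j)
    have h10 : m' ∈ S := by
      rw [hS, Finset.mem_filter]
      refine ⟨mem_support_iff.2 h7, ?_⟩
      rw [h8, wtx_smul]
      push_cast
      have : wtx w0 w1 a ≤ (p : ℝ) ^ (j + 1) * wtx w0 w1 a := le_mul_of_one_le_left hax.le h9.le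
      exact ha2.trans_le (mul_le_mul_of_nonneg_left this hQ.le)
    have h11 := hmax m' h10
    rw [h8, wtt_smul] at h11
    push_cast at h11
    have : wtt w0 w1 a < (p : ℝ) ^ (j + 1) * wtt w0 w1 a := lt_mul_of_one_lt_left hat h9
    linarith

/-- **(b)** a monomial of `D` of weight `d` and inner weight `> B` is a `Q`-th power. -/
theorem stepB (h0 : 0 ≤ w0) (h1 : 0 ≤ w1) (hB : 0 ≤ B) (hκ : κ t ≠ 0)
    (hD : ∀ m, B < wtx w0 w1 m → coeff m (D + PP p κ t lam) = 0) (hd : WLe w0 w1 d D)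
    {m : Fin 2 ⊕ Fin 2 →₀ ℕ} (hm : coeff m D ≠ 0) (hw : wtt w0 w1 m = d) (hx : B < wtx w0 w1 m) :
    ∀ i, p ^ (t + 1) ∣ m i := by
  have h2 := hD m hx
  rw [coeff_add] at h2
  have h3 : coeff m (PP p κ t lam) ≠ 0 := by
    intro h
    rw [h, add_zero] at h2
    exact hm h2
  obtain ⟨i, hi, m', h4, h5⟩ := exists_of_coeff_PP_ne p h3
  have hp1 : (1 : ℝ) < p := by exact_mod_cast hp.out.one_lt
  have hq : (0 : ℝ) < (p : ℝ) ^ (i + 1) := by positivity
  have h6 : (p : ℝ) ^ (i + 1) ≤ (p : ℝ) ^ (t + 1) := pow_le_pow_right₀ hp1.le (by omega)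
  have h7 : wtx w0 w1 m = (p : ℝ) ^ (i + 1) * wtx w0 w1 m' := by
    rw [h4, wtx_smul]
    push_cast
    rfl
  have h8 : wtt w0 w1 m = (p : ℝ) ^ (i + 1) * wtt w0 w1 m' := by
    rw [h4, wtt_smul]
    push_cast
    rfl
  have h9 : 0 < wtx w0 w1 m' := by
    by_contra h
    push Not at h
    have := mul_nonpos_of_nonneg_of_nonpos hq.le h
    linarith
  have h10 : B < (p : ℝ) ^ (t + 1) * wtx w0 w1 m' :=
    (hx.trans_eq h7).trans_le (mul_le_mul_of_nonneg_right h6 h9.le)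
  have h11 := stepA p h0 h1 hB hκ hD hd h5 h10
  have h12 : 0 < wtt w0 w1 m' := add_pos_of_pos_of_nonneg h9 (wtg_nonneg h0 h1 m')
  have h13 : (p : ℝ) ^ (t + 1) ≤ (p : ℝ) ^ (i + 1) := by
    rw [← hw, h8] at h11
    exact le_of_mul_le_mul_right h11 h12
  have h14 : t ≤ i := by
    by_contra h
    push Not at h
    have : (p : ℝ) ^ (i + 1) < (p : ℝ) ^ (t + 1) := pow_lt_pow_right₀ hp1 (by omega)
    linarith
  have h15 : i = t := le_antisymm hi h14
  intro x
  rw [h4, h15, Finsupp.smul_apply, smul_eq_mul]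
  exact dvd_mul_right _ _

end

/-! ### The law -/

section

variable {w0 w1 : ℝ}

theorem coeff_eq_zero_of_X_pow_dvd {σ : Type*} {i : σ} {n : ℕ} {P : MvPolynomial σ k}
    (h : X i ^ n ∣ P) {m : σ →₀ ℕ} (hm : m i < n) : coeff m P = 0 := by
  classical
  obtain ⟨R, rfl⟩ := h
  by_contra hc
  rw [coeff_mul] at hc
  obtain ⟨⟨a, b⟩, hab, h1⟩ := Finset.exists_ne_zero_of_sum_ne_zero hc
  replace hab := Finset.HasAntidiagonal.mem_antidiagonal.1 hab
  simp only at hab h1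
  have h2 := left_ne_zero_of_mul h1
  rw [X_pow_eq_monomial, coeff_monomial] at h2
  have h3 : Finsupp.single i n = a := by
    by_contra h3
    rw [if_neg h3] at h2
    exact h2 rfl
  rw [← hab, ← h3, Finsupp.add_apply, Finsupp.single_eq_same] at hm
  omega

/-- `Λ(x₀, g₀)`. -/
noncomputable def Lam (Λ : MvPolynomial (Fin 2) k) : MvPolynomial (Fin 2 ⊕ Fin 2) k :=
  aeval ![X (.inl 0), X (.inr 0)] Λ

theorem Lam_eq_sum (Λ : MvPolynomial (Fin 2) k) :
    Lam Λ = ∑ m ∈ Λ.support, C (coeff m Λ) * (X (.inl 0) ^ m 0 * X (.inr 0) ^ m 1) := by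
  conv_lhs => rw [Lam, Λ.as_sum, map_sum]
  refine Finset.sum_congr rfl fun m _ => ?_
  rw [aeval_monomial, algebraMap_eq, Finsupp.prod_fintype _ _ (fun i => pow_zero _),
    Fin.prod_univ_two]
  rfl

theorem Lam_wle {Λ : MvPolynomial (Fin 2) k}
    (h : ∀ m ∈ Λ.support, (m 0 + m 1 : ℝ) * w0 ≤ w1) : WLe w0 w1 w1 (Lam Λ) := by
  classical
  intro m hm
  rw [Lam_eq_sum, coeff_sum] at hm
  obtain ⟨n, hn, h1⟩ := Finset.exists_ne_zero_of_sum_ne_zero hm
  have h2 : WLe w0 w1 (0 + ((n 0 : ℝ) * wtt w0 w1 (Finsupp.single (.inl 0) 1) +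
      (n 1 : ℝ) * wtt w0 w1 (Finsupp.single (.inr 0) 1)))
      (C (coeff n Λ) * (X (.inl 0) ^ n 0 * X (.inr 0) ^ n 1) : MvPolynomial (Fin 2 ⊕ Fin 2) k) :=
    (WLe.C _).mul (((WLe.X _).pow _).mul ((WLe.X _).pow _))
  have h3 := h2 m h1
  have h4 : wtt w0 w1 (Finsupp.single (.inl 0) 1) = w0 := by simp [wtt, wtx, wtg]
  have h5 : wtt w0 w1 (Finsupp.single (.inr 0) 1) = w0 := by simp [wtt, wtx, wtg]
  rw [h4, h5] at h3
  have := h n hn
  linarith

theorem Lam_dvd_inr {Λ : MvPolynomial (Fin 2) k} (h : LNor Λ) :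
    (X (.inr 0) : MvPolynomial (Fin 2 ⊕ Fin 2) k) ∣ Lam Λ := by
  rw [Lam_eq_sum]
  refine Finset.dvd_sum fun m hm => ?_
  obtain ⟨n, hn⟩ := Nat.exists_eq_succ_of_ne_zero (h m hm).2
  rw [hn, pow_succ]
  exact Dvd.intro_left (C (coeff m Λ) * X (.inl 0) ^ m 0 * X (.inr 0) ^ n) (by ring)

theorem Lam_dvd_inl {Λ : MvPolynomial (Fin 2) k} (h : LNor Λ) :
    (X (.inl 0) : MvPolynomial (Fin 2 ⊕ Fin 2) k) ∣ Lam Λ := by
  rw [Lam_eq_sum]
  refine Finset.dvd_sum fun m hm => ?_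
  obtain ⟨n, hn⟩ := Nat.exists_eq_succ_of_ne_zero (h m hm).1
  rw [hn, pow_succ]
  exact Dvd.intro_left (C (coeff m Λ) * X (.inl 0) ^ n * X (.inr 0) ^ m 1) (by ring)

/-- The image of a monomial. -/
noncomputable def mon (L : MvPolynomial (Fin 2 ⊕ Fin 2) k) (n : Fin 2 →₀ ℕ) :
    MvPolynomial (Fin 2 ⊕ Fin 2) k :=
  (X (.inl 0) + X (.inr 0)) ^ n 0 * (X (.inl 1) + X (.inr 1) + L) ^ n 1

theorem mulS_eq_sum (Λ G : MvPolynomial (Fin 2) k) :
    mulS Λ G = ∑ n ∈ G.support, C (coeff n G) * mon (Lam Λ) n := by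
  conv_lhs => rw [mulS, G.as_sum, map_sum]
  refine Finset.sum_congr rfl fun m _ => ?_
  rw [aeval_monomial, algebraMap_eq, Finsupp.prod_fintype _ _ (fun i => pow_zero _),
    Fin.prod_univ_two]
  rfl

theorem mon_wle {L : MvPolynomial (Fin 2 ⊕ Fin 2) k} (hL : WLe w0 w1 w1 L) (n : Fin 2 →₀ ℕ) :
    WLe w0 w1 (wt w0 w1 n) (mon L n) := by
  have h1 : wtt w0 w1 (Finsupp.single (.inl 0) 1) = w0 := by simp [wtt, wtx, wtg]
  have h2 : wtt w0 w1 (Finsupp.single (.inr 0) 1) = w0 := by simp [wtt, wtx, wtg]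
  have h3 : wtt w0 w1 (Finsupp.single (.inl 1) 1) = w1 := by simp [wtt, wtx, wtg]
  have h4 : wtt w0 w1 (Finsupp.single (.inr 1) 1) = w1 := by simp [wtt, wtx, wtg]
  have e1 : WLe w0 w1 w0 (X (.inl 0) + X (.inr 0) : MvPolynomial (Fin 2 ⊕ Fin 2) k) := by
    refine WLe.add ?_ ?_
    · have := WLe.X (w0 := w0) (w1 := w1) (k := k) (.inl 0)
      rwa [h1] at this
    · have := WLe.X (w0 := w0) (w1 := w1) (k := k) (.inr 0)
      rwa [h2] at this
  have e2 : WLe w0 w1 w1 (X (.inl 1) + X (.inr 1) + L) := by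
    refine WLe.add (WLe.add ?_ ?_) hL
    · have := WLe.X (w0 := w0) (w1 := w1) (k := k) (.inl 1)
      rwa [h3] at this
    · have := WLe.X (w0 := w0) (w1 := w1) (k := k) (.inr 1)
      rwa [h4] at this
  exact (e1.pow _).mul (e2.pow _)

/-- The coefficients for the additive law. -/
theorem coeff_mon_zero (n : Fin 2 →₀ ℕ) (m : Fin 2 ⊕ Fin 2 →₀ ℕ) :
    coeff m (mon (0 : MvPolynomial (Fin 2 ⊕ Fin 2) k) n) =
      if m (.inl 0) + m (.inr 0) = n 0 ∧ m (.inl 1) + m (.inr 1) = n 1 then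
        ((n 0).choose (m (.inl 0)) : k) * ((n 1).choose (m (.inl 1)) : k) else 0 := by
  classical
  have h1 : mon (0 : MvPolynomial (Fin 2 ⊕ Fin 2) k) n =
      ∑ i ∈ Finset.range (n 0 + 1), ∑ j ∈ Finset.range (n 1 + 1),
        monomial (Finsupp.single (.inl 0) i + Finsupp.single (.inr 0) (n 0 - i) +
          (Finsupp.single (.inl 1) j + Finsupp.single (.inr 1) (n 1 - j)))
          (((n 0).choose i : k) * ((n 1).choose j : k)) := by
    rw [mon, add_zero, add_pow, add_pow, Finset.sum_mul_sum]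
    refine Finset.sum_congr rfl fun i _ => Finset.sum_congr rfl fun j _ => ?_
    rw [← map_natCast (C : k →+* MvPolynomial (Fin 2 ⊕ Fin 2) k),
      ← map_natCast (C : k →+* MvPolynomial (Fin 2 ⊕ Fin 2) k), X_pow_eq_monomial,
      X_pow_eq_monomial, X_pow_eq_monomial, X_pow_eq_monomial, monomial_mul, monomial_mul,
      mul_comm (monomial _ _) (C _), mul_comm (monomial _ _) (C _), C_mul_monomial,
      C_mul_monomial, monomial_mul]
    simp
  rw [h1, coeff_sum]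
  simp only [coeff_sum, coeff_monomial]
  split_ifs with h
  · rw [Finset.sum_eq_single_of_mem (m (.inl 0)) (Finset.mem_range.2 (by omega)),
      Finset.sum_eq_single_of_mem (m (.inl 1)) (Finset.mem_range.2 (by omega)), if_pos]
    · ext x
      rcases x with x | x <;> fin_cases x <;> simp <;> omega
    · intro j _ hj
      rw [if_neg]
      intro h2
      apply hj
      have := DFunLike.congr_fun h2 (.inl 1)
      simpa using this
    · intro i _ hi
      refine Finset.sum_eq_zero fun j _ => ?_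
      rw [if_neg]
      intro h2
      apply hi
      have := DFunLike.congr_fun h2 (.inl 0)
      simpa using this
  · refine Finset.sum_eq_zero fun i hi => Finset.sum_eq_zero fun j hj => ?_
    rw [if_neg]
    intro h2
    apply h
    have e1 := DFunLike.congr_fun h2 (.inl 0)
    have e2 := DFunLike.congr_fun h2 (.inr 0)
    have e3 := DFunLike.congr_fun h2 (.inl 1)
    have e4 := DFunLike.congr_fun h2 (.inr 1)
    simp at e1 e2 e3 e4
    rw [Finset.mem_range] at hi hj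
    omega

theorem WLe.sub {D : ℝ} {P R : MvPolynomial (Fin 2 ⊕ Fin 2) k} (hP : WLe w0 w1 D P)
    (hR : WLe w0 w1 D R) : WLe w0 w1 D (P - R) := by
  intro m hm
  rw [coeff_sub] at hm
  by_cases h : coeff m P = 0
  · rw [h, zero_sub] at hm
    exact hR m (neg_ne_zero.1 hm)
  · exact hP m h

theorem coeff_inX_eq_zero (G : MvPolynomial (Fin 2) k) {m : Fin 2 ⊕ Fin 2 →₀ ℕ} {i : Fin 2}
    (h : m (.inr i) ≠ 0) : coeff m (inX G) = 0 := by
  refine coeff_rename_eq_zero _ _ _ fun u hu => ?_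
  exfalso
  apply h
  rw [← hu]
  exact Finsupp.mapDomain_of_notMem_range _ _ (by simp)

theorem coeff_inG_eq_zero (G : MvPolynomial (Fin 2) k) {m : Fin 2 ⊕ Fin 2 →₀ ℕ} {i : Fin 2}
    (h : m (.inl i) ≠ 0) : coeff m (inG G) = 0 := by
  refine coeff_rename_eq_zero _ _ _ fun u hu => ?_
  exfalso
  apply h
  rw [← hu]
  exact Finsupp.mapDomain_of_notMem_range _ _ (by simp)

theorem inX_wle {G : MvPolynomial (Fin 2) k} {d : ℝ} (h : ∀ m ∈ G.support, wt w0 w1 m ≤ d) :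
    WLe w0 w1 d (inX G) := by
  intro m hm
  obtain ⟨u, hu, h1⟩ := coeff_rename_ne_zero _ _ _ hm
  have h2 := h u (mem_support_iff.2 h1)
  have h3 : ∀ i : Fin 2, m (.inl i) = u i := fun i => by
    rw [← hu, Finsupp.mapDomain_apply Sum.inl_injective]
  have h4 : ∀ i : Fin 2, m (.inr i) = 0 := fun i => by
    rw [← hu]
    exact Finsupp.mapDomain_of_notMem_range _ _ (by simp)
  simp only [wtt, wtx, wtg, wt, h3, h4] at h2 ⊢
  simpa using h2

theorem inG_wle {G : MvPolynomial (Fin 2) k} {d : ℝ} (h : ∀ m ∈ G.support, wt w0 w1 m ≤ d) :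
    WLe w0 w1 d (inG G) := by
  intro m hm
  obtain ⟨u, hu, h1⟩ := coeff_rename_ne_zero _ _ _ hm
  have h2 := h u (mem_support_iff.2 h1)
  have h3 : ∀ i : Fin 2, m (.inr i) = u i := fun i => by
    rw [← hu, Finsupp.mapDomain_apply Sum.inr_injective]
  have h4 : ∀ i : Fin 2, m (.inl i) = 0 := fun i => by
    rw [← hu]
    exact Finsupp.mapDomain_of_notMem_range _ _ (by simp)
  simp only [wtt, wtx, wtg, wt, h3, h4] at h2 ⊢
  simpa using h2

theorem mulS_wle {Λ G : MvPolynomial (Fin 2) k} {d : ℝ}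
    (hΛ : ∀ m ∈ Λ.support, (m 0 + m 1 : ℝ) * w0 ≤ w1)
    (h : ∀ m ∈ G.support, wt w0 w1 m ≤ d) : WLe w0 w1 d (mulS Λ G) := by
  classical
  intro m hm
  rw [mulS_eq_sum, coeff_sum] at hm
  obtain ⟨n, hn, h1⟩ := Finset.exists_ne_zero_of_sum_ne_zero hm
  rw [coeff_C_mul] at h1
  exact (mon_wle (Lam_wle hΛ) n m (right_ne_zero_of_mul h1)).trans (h n hn)

/-- The sum of the two exponents. -/
noncomputable def tot (m : Fin 2 ⊕ Fin 2 →₀ ℕ) : Fin 2 →₀ ℕ :=
  Finsupp.equivFunOnFinite.symm ![m (.inl 0) + m (.inr 0), m (.inl 1) + m (.inr 1)]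

/-- **The coefficients of `G(x * g)`** at the top weight. -/
theorem coeff_mulS {Λ G : MvPolynomial (Fin 2) k} {d : ℝ}
    (hΛ : ∀ m ∈ Λ.support, (m 0 + m 1 : ℝ) * w0 ≤ w1)
    (h : ∀ m ∈ G.support, wt w0 w1 m ≤ d) {m : Fin 2 ⊕ Fin 2 →₀ ℕ} (hm : wtt w0 w1 m = d)
    {i : Fin 2 ⊕ Fin 2} {N : ℕ} (hi : m i < N)
    (hdv : ∀ n ∈ G.support, wt w0 w1 n = d → X i ^ N ∣ mon (Lam Λ) n - mon 0 n) :
    coeff m (mulS Λ G) = coeff (tot m) G *
      ((((tot m) 0).choose (m (.inl 0)) : k) * (((tot m) 1).choose (m (.inl 1)) : k)) := by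
  classical
  rw [mulS_eq_sum, coeff_sum]
  have h1 : ∀ n ∈ G.support, coeff m (C (coeff n G) * mon (Lam Λ) n) =
      if n = tot m then coeff n G * (((n 0).choose (m (.inl 0)) : k) *
        ((n 1).choose (m (.inl 1)) : k)) else 0 := by
    intro n hn
    have h2 : coeff m (mon (Lam Λ) n) = coeff m (mon (0 : MvPolynomial (Fin 2 ⊕ Fin 2) k) n) := by
      rcases (h n hn).lt_or_eq with h3 | h3
      · have e1 : coeff m (mon (Lam Λ) n) = 0 := by
          by_contra e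
          have := mon_wle (Lam_wle hΛ) n m e
          linarith
        have e2 : coeff m (mon (0 : MvPolynomial (Fin 2 ⊕ Fin 2) k) n) = 0 := by
          by_contra e
          have e3 : WLe w0 w1 w1 (0 : MvPolynomial (Fin 2 ⊕ Fin 2) k) := fun m hm =>
            absurd (coeff_zero m) hm
          have := mon_wle e3 n m e
          linarith
        rw [e1, e2]
      · have := coeff_eq_zero_of_X_pow_dvd (hdv n hn h3) hi
        rwa [coeff_sub, sub_eq_zero] at this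
    rw [coeff_C_mul, h2, coeff_mon_zero]
    by_cases h4 : n = tot m
    · rw [if_pos h4, if_pos]
      rw [h4]
      exact ⟨rfl, rfl⟩
    · rw [if_neg h4, if_neg, mul_zero]
      rintro ⟨e1, e2⟩
      apply h4
      ext x
      fin_cases x
      · exact e1.symm
      · exact e2.symm
  rw [Finset.sum_congr rfl h1, Finset.sum_ite_eq']
  split_ifs with h5
  · rfl
  · rw [notMem_support_iff.1 h5, zero_mul]

theorem mon_sub_dvd {L : MvPolynomial (Fin 2 ⊕ Fin 2) k} {i : Fin 2 ⊕ Fin 2} (h : X i ∣ L)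
    (n : Fin 2 →₀ ℕ) : X i ^ 1 ∣ mon L n - mon 0 n := by
  rw [pow_one, mon, mon, ← mul_sub, add_zero]
  refine Dvd.dvd.mul_left ?_ _
  refine dvd_trans ?_ (sub_dvd_pow_sub_pow _ _ _)
  rwa [add_sub_cancel_left]

theorem mon_sub_dvd_pow (p : ℕ) [hp : Fact p.Prime] [CharP k p] {s : ℕ}
    {L : MvPolynomial (Fin 2 ⊕ Fin 2) k} {i : Fin 2 ⊕ Fin 2} (h : X i ∣ L)
    {n : Fin 2 →₀ ℕ} (hn : p ^ s ∣ n 1) : X i ^ p ^ s ∣ mon L n - mon 0 n := by
  rw [mon, mon, ← mul_sub, add_zero]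
  refine Dvd.dvd.mul_left ?_ _
  obtain ⟨r, hr⟩ := hn
  have : ExpChar (MvPolynomial (Fin 2 ⊕ Fin 2) k) p := ExpChar.prime hp.out
  rw [hr, pow_mul, pow_mul]
  refine dvd_trans ?_ (sub_dvd_pow_sub_pow _ _ _)
  rw [← sub_pow_expChar_pow, add_sub_cancel_left]
  exact pow_dvd_pow_of_dvd h _

end

/-! ### Binomial coefficients -/

theorem choose_pow_mul {p : ℕ} [Fact p.Prime] (v a b : ℕ) :
    (p ^ v * a).choose (p ^ v * b) ≡ a.choose b [MOD p] := by
  induction v with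
  | zero => rw [pow_zero, one_mul, one_mul]
  | succ v ih =>
    rw [pow_succ', mul_assoc, mul_assoc]
    exact (Choose.choose_mul_mul_modEq_choose_nat).trans ih

theorem not_dvd_choose {p : ℕ} [hp : Fact p.Prime] {v a : ℕ} (ha : ¬ p ∣ a) :
    ¬ p ∣ (p ^ v * a).choose (p ^ v) := by
  have h1 := choose_pow_mul (p := p) v a 1
  rw [mul_one, Nat.choose_one_right] at h1
  rwa [← (h1.dvd_iff dvd_rfl)] at ha

theorem exists_not_dvd_choose {p : ℕ} [hp : Fact p.Prime] {t b : ℕ} (h : ¬ p ^ (t + 1) ∣ b) :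
    ∃ i, i ≤ t ∧ p ^ i ≤ b ∧ ¬ p ∣ b.choose (p ^ i) := by
  have hb : b ≠ 0 := by
    rintro rfl
    exact h (dvd_zero _)
  obtain ⟨v, a, ha, rfl⟩ := Nat.exists_eq_pow_mul_and_not_dvd hb p hp.out.ne_one
  refine ⟨v, ?_, ?_, not_dvd_choose ha⟩
  · by_contra hv
    push Not at hv
    exact h (dvd_mul_of_dvd_left (pow_dvd_pow _ hv) _)
  · refine Nat.le_mul_of_pos_right _ (Nat.pos_of_ne_zero ?_)
    rintro rfl
    exact ha (dvd_zero _)

/-! ### The theorem -/

/-- A monomial in four variables. -/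
noncomputable def mk4 (a b c e : ℕ) : Fin 2 ⊕ Fin 2 →₀ ℕ :=
  Finsupp.equivFunOnFinite.symm (Sum.elim ![a, b] ![c, e])

theorem e2_gen (p : ℕ) [hp : Fact p.Prime] [CharP k p] (w0 w1 B d : ℝ) (t : ℕ) (κ : ℕ → k)
    (Λ G : MvPolynomial (Fin 2) k) (lam : MvPolynomial (Fin 2 ⊕ Fin 2) k)
    (h0 : 0 < w0) (h01 : w0 ≤ w1) (hB : 0 ≤ B) (hκ : κ t ≠ 0) (hN : LNor Λ)
    (hΛ : ∀ m ∈ Λ.support, (m 0 + m 1 : ℝ) * w0 ≤ w1)
    (hD : ∀ m, B < wtx w0 w1 m → coeff m (mulS Λ G - inX G - inG G + PP p κ t lam) = 0)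
    (hd : ∀ m ∈ G.support, wt w0 w1 m ≤ d) (hex : ∃ m ∈ G.support, wt w0 w1 m = d)
    (hr : ∀ m ∈ G.support, wt w0 w1 m = d → ¬ (p ^ (t + 1) ∣ m 0 ∧ p ^ (t + 1) ∣ m 1)) :
    d ≤ 2 * B ∨ d ≤ p ^ t * w1 := by
  classical
  by_contra hcon
  push Not at hcon
  obtain ⟨hc1, hc2⟩ := hcon
  have h1 : 0 < w1 := h0.trans_le h01
  have hp1 : (1 : ℝ) < p := by exact_mod_cast hp.out.one_lt
  have hDw : WLe w0 w1 d (mulS Λ G - inX G - inG G) :=
    ((mulS_wle hΛ hd).sub (inX_wle hd)).sub (inG_wle hd)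
  have hb := fun {m : Fin 2 ⊕ Fin 2 →₀ ℕ} (h2 : coeff m (mulS Λ G - inX G - inG G) ≠ 0)
    (h3 : wtt w0 w1 m = d) (h4 : B < wtx w0 w1 m) => stepB p h0.le h1.le hB hκ hD hDw h2 h3 h4
  have hpow : ∀ i, i ≤ t → ¬ p ^ (t + 1) ∣ p ^ i := fun i hi h2 => by
    have := (Nat.pow_dvd_pow_iff_le_right hp.out.one_lt).1 h2
    omega
  have hpt : ∀ i, i ≤ t → (p : ℝ) ^ i ≤ (p : ℝ) ^ t := fun i hi => pow_le_pow_right₀ hp1.le hi
  -- the exponents of the second variable
  have hQ1 : ∀ n ∈ G.support, wt w0 w1 n = d → p ^ (t + 1) ∣ n 1 := by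
    intro n hn hw
    by_contra hnd
    obtain ⟨i, hi, hle, hch⟩ := exists_not_dvd_choose hnd
    obtain ⟨b, hb'⟩ := Nat.exists_eq_add_of_le hle
    have hchk : ((n 1).choose (p ^ i) : k) ≠ 0 := fun h => hch ((CharP.cast_eq_zero_iff k p _).1 h)
    have hGn : coeff n G ≠ 0 := mem_support_iff.1 hn
    have hw' : (n 0 : ℝ) * w0 + ((p : ℝ) ^ i + b) * w1 = d := by
      rw [← hw, wt, hb']
      push_cast
      ring
    have hne : n 0 ≠ 0 ∨ b ≠ 0 := by
      by_contra h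
      push Not at h
      rw [h.1, h.2] at hw'
      have := mul_le_mul_of_nonneg_right (hpt i hi) h1.le
      push_cast at hw'
      linarith
    have hpi : p ^ i ≠ 0 := pow_ne_zero _ hp.out.ne_zero
    -- first monomial
    have e1 : (n 0 : ℝ) * w0 + b * w1 ≤ B := by
      by_contra hlt
      push Not at hlt
      set m := mk4 (n 0) b 0 (p ^ i) with hmdef
      have t0 : tot m = n := by
        ext x
        fin_cases x
        · change n 0 + 0 = n 0
          rfl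
        · change b + p ^ i = n 1
          rw [hb', add_comm]
      have c1 : coeff m (mulS Λ G) ≠ 0 := by
        rw [coeff_mulS hΛ hd (i := .inr 0) (N := 1) ?_ ?_ ?_, t0]
        · refine mul_ne_zero hGn (mul_ne_zero ?_ ?_)
          · change ((n 0).choose (n 0) : k) ≠ 0
            rw [Nat.choose_self, Nat.cast_one]
            exact one_ne_zero
          · change ((n 1).choose b : k) ≠ 0
            rwa [hb', ← Nat.choose_symm_add, ← hb']
        · change (n 0 * w0 + b * w1 : ℝ) + ((0 : ℕ) * w0 + (p ^ i : ℕ) * w1) = d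
          push_cast
          linarith
        · exact Nat.zero_lt_one
        · exact fun n _ _ => mon_sub_dvd (Lam_dvd_inr hN) n
      have c2 : coeff m (mulS Λ G - inX G - inG G) ≠ 0 := by
        rw [coeff_sub, coeff_sub, coeff_inX_eq_zero G (i := 1) hpi]
        rcases hne with h | h
        · rwa [coeff_inG_eq_zero G (i := 0) h, sub_zero, sub_zero]
        · rwa [coeff_inG_eq_zero G (i := 1) h, sub_zero, sub_zero]
      refine hpow i hi (hb c2 ?_ hlt (.inr 1))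
      change (n 0 * w0 + b * w1 : ℝ) + ((0 : ℕ) * w0 + (p ^ i : ℕ) * w1) = d
      push_cast
      linarith
    -- second monomial
    have e2 : (p : ℝ) ^ i * w1 ≤ B := by
      by_contra hlt
      push Not at hlt
      set m := mk4 0 (p ^ i) (n 0) b with hmdef
      have t0 : tot m = n := by
        ext x
        fin_cases x
        · change 0 + n 0 = n 0
          rw [zero_add]
        · change p ^ i + b = n 1
          rw [hb']
      have c0 : wtt w0 w1 m = d := by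
        change ((0 : ℕ) * w0 + (p ^ i : ℕ) * w1 : ℝ) + (n 0 * w0 + b * w1) = d
        push_cast
        linarith
      have c1 : coeff m (mulS Λ G) ≠ 0 := by
        rw [coeff_mulS hΛ hd (i := .inl 0) (N := 1) c0 ?_ ?_, t0]
        · refine mul_ne_zero hGn (mul_ne_zero ?_ hchk)
          change ((n 0).choose 0 : k) ≠ 0
          rw [Nat.choose_zero_right, Nat.cast_one]
          exact one_ne_zero
        · exact Nat.zero_lt_one
        · exact fun n _ _ => mon_sub_dvd (Lam_dvd_inl hN) n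
      have c2 : coeff m (mulS Λ G - inX G - inG G) ≠ 0 := by
        rw [coeff_sub, coeff_sub, coeff_inG_eq_zero G (i := 1) hpi]
        rcases hne with h | h
        · rwa [coeff_inX_eq_zero G (i := 0) h, sub_zero, sub_zero]
        · rwa [coeff_inX_eq_zero G (i := 1) h, sub_zero, sub_zero]
      refine hpow i hi (hb c2 c0 ?_ (.inl 1))
      change B < ((0 : ℕ) * w0 + (p ^ i : ℕ) * w1 : ℝ)
      push_cast
      linarith
    linarith
  -- the exponents of the first variable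
  obtain ⟨n, hn, hw⟩ := hex
  have hn1 := hQ1 n hn hw
  have hn0 : ¬ p ^ (t + 1) ∣ n 0 := fun h => hr n hn hw ⟨h, hn1⟩
  obtain ⟨i, hi, hle, hch⟩ := exists_not_dvd_choose hn0
  obtain ⟨a, ha'⟩ := Nat.exists_eq_add_of_le hle
  have hchk : ((n 0).choose (p ^ i) : k) ≠ 0 := fun h => hch ((CharP.cast_eq_zero_iff k p _).1 h)
  have hGn : coeff n G ≠ 0 := mem_support_iff.1 hn
  have hw' : ((p : ℝ) ^ i + a) * w0 + n 1 * w1 = d := by
    rw [← hw, wt, ha']
    push_cast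
    ring
  have hpi : p ^ i ≠ 0 := pow_ne_zero _ hp.out.ne_zero
  have hlt' : p ^ i < p ^ (t + 1) := Nat.pow_lt_pow_right hp.out.one_lt (by omega)
  have hne : a ≠ 0 ∨ n 1 ≠ 0 := by
    by_contra h
    push Not at h
    rw [h.1, h.2] at hw'
    have e1 := mul_le_mul_of_nonneg_right (hpt i hi) h0.le
    have e2 := mul_le_mul_of_nonneg_left h01 (show (0 : ℝ) ≤ (p : ℝ) ^ t by positivity)
    push_cast at hw'
    linarith
  have e1 : (a : ℝ) * w0 + n 1 * w1 ≤ B := by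
    by_contra hlt
    push Not at hlt
    set m := mk4 a (n 1) (p ^ i) 0 with hmdef
    have t0 : tot m = n := by
      ext x
      fin_cases x
      · change a + p ^ i = n 0
        rw [ha', add_comm]
      · change n 1 + 0 = n 1
        rfl
    have c0 : wtt w0 w1 m = d := by
      change (a * w0 + n 1 * w1 : ℝ) + ((p ^ i : ℕ) * w0 + (0 : ℕ) * w1) = d
      push_cast
      linarith
    have c1 : coeff m (mulS Λ G) ≠ 0 := by
      rw [coeff_mulS hΛ hd (i := .inr 0) (N := p ^ (t + 1)) c0 hlt' ?_, t0]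
      · refine mul_ne_zero hGn (mul_ne_zero ?_ ?_)
        · change ((n 0).choose a : k) ≠ 0
          rwa [ha', ← Nat.choose_symm_add, ← ha']
        · change ((n 1).choose (n 1) : k) ≠ 0
          rw [Nat.choose_self, Nat.cast_one]
          exact one_ne_zero
      · exact fun n hn hw => mon_sub_dvd_pow p (Lam_dvd_inr hN) (hQ1 n hn hw)
    have c2 : coeff m (mulS Λ G - inX G - inG G) ≠ 0 := by
      rw [coeff_sub, coeff_sub, coeff_inX_eq_zero G (i := 0) hpi]
      rcases hne with h | h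
      · rwa [coeff_inG_eq_zero G (i := 0) h, sub_zero, sub_zero]
      · rwa [coeff_inG_eq_zero G (i := 1) h, sub_zero, sub_zero]
    exact hpow i hi (hb c2 c0 hlt (.inr 0))
  have e2 : (p : ℝ) ^ i * w0 ≤ B := by
    by_contra hlt
    push Not at hlt
    set m := mk4 (p ^ i) 0 a (n 1) with hmdef
    have t0 : tot m = n := by
      ext x
      fin_cases x
      · change p ^ i + a = n 0
        rw [ha']
      · change 0 + n 1 = n 1
        rw [zero_add]
    have c0 : wtt w0 w1 m = d := by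
      change ((p ^ i : ℕ) * w0 + (0 : ℕ) * w1 : ℝ) + (a * w0 + n 1 * w1) = d
      push_cast
      linarith
    have c1 : coeff m (mulS Λ G) ≠ 0 := by
      rw [coeff_mulS hΛ hd (i := .inl 0) (N := p ^ (t + 1)) c0 hlt' ?_, t0]
      · refine mul_ne_zero hGn (mul_ne_zero hchk ?_)
        change ((n 1).choose 0 : k) ≠ 0
        rw [Nat.choose_zero_right, Nat.cast_one]
        exact one_ne_zero
      · exact fun n hn hw => mon_sub_dvd_pow p (Lam_dvd_inl hN) (hQ1 n hn hw)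
    have c2 : coeff m (mulS Λ G - inX G - inG G) ≠ 0 := by
      rw [coeff_sub, coeff_sub, coeff_inG_eq_zero G (i := 0) hpi]
      rcases hne with h | h
      · rwa [coeff_inX_eq_zero G (i := 0) h, sub_zero, sub_zero]
      · rwa [coeff_inX_eq_zero G (i := 1) h, sub_zero, sub_zero]
    refine hpow i hi (hb c2 c0 ?_ (.inl 0))
    change B < ((p ^ i : ℕ) * w0 + (0 : ℕ) * w1 : ℝ)
    push_cast
    linarith
  linarith

/-- **(T2)**. -/
theorem e2Stmt : E2Stmt := fun _ _ p _ _ w0 w1 B d t κ Λ G lam h0 h01 hB hκ hN hΛ hD hd hex hr =>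
  e2_gen p w0 w1 B d t κ Λ G lam h0 h01 hB hκ hN hΛ hD hd hex hr

end Pool.Agent.TWLY76
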