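import Pool.Agent.Lib.TWLY76.Val
import Pool.Agent.Lib.TWD.Vdm

/-!
# TANK W, row CT, j = 1: the degree lemma, case (ga)

`w1 = M w0`, `|x 1| < w1`, `Λ` of degree `M`: if the values of `N` at the right and left translates
of `x` by `k²` are bounded by `ν`, then all monomials of `N` have weight at most `2 ν`.
-/

set_option autoImplicit false

open Finset

namespace Pool.Agent.TWLY76

open Pool.Agent.H15JM (RVal)
open Pool.Agent.D2 (Ctx0)

universe u

variable {k Ω : Type u} [Field k] [Field Ω] [Algebra k Ω] {v : RVal Ω} {w E E' δ : ℝ}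

/-- The weighted Gauss condition: `|coeff b h| ≤ E - b w`. -/
def Gd (v : RVal Ω) (w E : ℝ) (h : Polynomial Ω) : Prop := ∀ b : ℕ, v.Ge (b * w - E) (h.coeff b)

section Gd

variable {f g : Polynomial Ω}

theorem Gd.mono (h : Gd v w E f) (hE : E ≤ E') : Gd v w E' f := fun b => (h b).mono (by linarith)

theorem Gd.zero : Gd v w E (0 : Polynomial Ω) := fun b => by
  rw [Polynomial.coeff_zero]
  exact RVal.Ge.zero

theorem Gd.add (h : Gd v w E f) (h' : Gd v w E g) : Gd v w E (f + g) := fun b => by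
  rw [Polynomial.coeff_add]
  exact (h b).add (h' b)

theorem Gd.sub (h : Gd v w E f) (h' : Gd v w E g) : Gd v w E (f - g) := fun b => by
  rw [Polynomial.coeff_sub]
  exact (h b).sub (h' b)

theorem Gd.sum {ι : Type*} (s : Finset ι) (f : ι → Polynomial Ω) (h : ∀ i ∈ s, Gd v w E (f i)) :
    Gd v w E (∑ i ∈ s, f i) := fun b => by
  rw [Polynomial.finsetSum_coeff]
  exact RVal.Ge.sum _ _ fun i hi => h i hi b

theorem Gd.mul (h : Gd v w E f) (h' : Gd v w E' g) : Gd v w (E + E') (f * g) := fun b => by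
  rw [Polynomial.coeff_mul]
  refine RVal.Ge.sum _ _ fun ij hij => ?_
  rw [Finset.HasAntidiagonal.mem_antidiagonal] at hij
  refine ((h ij.1).mul (h' ij.2)).mono (le_of_eq ?_)
  rw [← hij]
  push_cast
  ring

theorem Gd.C {c : Ω} (h : v.Ge (-E) c) : Gd v w E (Polynomial.C c) := fun b => by
  rw [Polynomial.coeff_C]
  split_ifs with hb
  · rw [hb]
    simpa using h
  · exact RVal.Ge.zero

theorem Gd.X : Gd v w w (Polynomial.X : Polynomial Ω) := fun b => by
  rw [Polynomial.coeff_X]
  split_ifs with hb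
  · rw [← hb]
    have h1 : v.Ge 0 (1 : Ω) := fun _ => v.map_one.ge
    simpa using h1
  · exact RVal.Ge.zero

theorem Gd.one : Gd v w 0 (1 : Polynomial Ω) := by
  have h1 : v.Ge (-0) (1 : Ω) := fun _ => by simp [v.map_one]
  simpa using Gd.C (w := w) h1

theorem Gd.pow (h : Gd v w E f) : ∀ n : ℕ, Gd v w (n * E) (f ^ n)
  | 0 => by simpa using Gd.one
  | n + 1 => by
    rw [pow_succ]
    have := (h.pow n).mul h
    refine this.mono (le_of_eq ?_)
    push_cast
    ring

theorem Gd.pow_sub (h : Gd v w E f) (h' : Gd v w E g) (hd : Gd v w (E - δ) (f - g)) (hδ : 0 ≤ δ) :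
    ∀ n : ℕ, Gd v w (n * E - δ) (f ^ n - g ^ n)
  | 0 => by
    rw [pow_zero, pow_zero, sub_self]
    exact Gd.zero
  | n + 1 => by
    have e : f ^ (n + 1) - g ^ (n + 1) = f ^ n * (f - g) + (f ^ n - g ^ n) * g := by ring
    rw [e]
    refine Gd.add (((h.pow n).mul hd).mono (le_of_eq ?_))
      (((h.pow_sub h' hd hδ n).mul h').mono (le_of_eq ?_)) <;> push_cast <;> ring

end Gd

/-- The values in an algebra. -/
theorem aeval_two {S : Type*} [CommRing S] [Algebra k S] (A B : S) (N : MvPolynomial (Fin 2) k) :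
    MvPolynomial.aeval ![A, B] N =
      ∑ m ∈ N.support, algebraMap k S (MvPolynomial.coeff m N) * (A ^ m 0 * B ^ m 1) := by
  rw [MvPolynomial.aeval_def, MvPolynomial.eval₂_eq']
  refine sum_congr rfl fun m _ => ?_
  rw [Fin.prod_univ_two]
  rfl

theorem Gd.const (hk : Ctx0 k v) (c : k) : Gd v w 0 (algebraMap k (Polynomial Ω) c) := by
  rw [IsScalarTower.algebraMap_apply k Ω (Polynomial Ω), Polynomial.algebraMap_eq]
  refine Gd.C ?_
  rw [neg_zero]
  exact hk.ge c

theorem Gd.aeval (hk : Ctx0 k v) {a b : ℝ} {A B : Polynomial Ω} (hA : Gd v w a A) (hB : Gd v w b B)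
    {N : MvPolynomial (Fin 2) k} (hN : ∀ m ∈ N.support, m 0 * a + m 1 * b ≤ E) :
    Gd v w E (MvPolynomial.aeval ![A, B] N) := by
  rw [aeval_two]
  refine Gd.sum _ _ fun m hm => ?_
  exact ((Gd.const hk _).mul ((hA.pow _).mul (hB.pow _))).mono (by linarith [hN m hm])

/-- The elements of size at most `ν`. -/
def szs (hk : Ctx0 k v) (ν : ℝ) : Submodule k Ω where
  carrier := {y | v.Ge (-ν) y}
  add_mem' h h' := h.add h'
  zero_mem' := RVal.Ge.zero
  smul_mem' c x hx := by
    have h1 := (hk.ge c).mul hx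
    rw [zero_add] at h1
    rw [Algebra.smul_def]
    exact h1

/-- Vandermonde. -/
theorem ge_coeff_of_eval [Infinite k] (hk : Ctx0 k v) {ν : ℝ} {h : Polynomial Ω}
    (hh : ∀ g : k, v.Ge (-ν) (h.eval (algebraMap k Ω g))) (b : ℕ) : v.Ge (-ν) (h.coeff b) := by
  by_cases hb : b < h.natDegree + 1
  · refine TWD.mem_of_vdm (szs hk ν) (A := fun l => h.coeff l) (N := h.natDegree + 1)
      Set.infinite_univ (fun ζ _ => ?_) b hb
    have h1 := hh ζ
    rw [Polynomial.eval_eq_sum_range] at h1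
    have h2 : ∑ l ∈ range (h.natDegree + 1), ζ ^ l • h.coeff l =
        ∑ i ∈ range (h.natDegree + 1), h.coeff i * algebraMap k Ω ζ ^ i := by
      refine sum_congr rfl fun l _ => ?_
      rw [Algebra.smul_def, map_pow, mul_comm]
    rw [h2]
    exact h1
  · rw [Polynomial.coeff_eq_zero_of_natDegree_lt (by omega)]
    exact RVal.Ge.zero

/-- The value of `h` at `g ∈ k`. -/
theorem eval_aeval (A B : Polynomial Ω) (z : Ω) (N : MvPolynomial (Fin 2) k) :
    (MvPolynomial.aeval ![A, B] N).eval z = MvPolynomial.aeval ![A.eval z, B.eval z] N := by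
  rw [aeval_two, aeval_two, Polynomial.eval_finsetSum]
  refine sum_congr rfl fun m _ => ?_
  rw [Polynomial.eval_mul, Polynomial.eval_mul, Polynomial.eval_pow, Polynomial.eval_pow,
    IsScalarTower.algebraMap_apply k Ω (Polynomial Ω), Polynomial.algebraMap_eq,
    Polynomial.eval_C]

section Top

variable (M e : ℕ) (Λ N : MvPolynomial (Fin 2) k)

/-- The top part of `Λ`. -/
noncomputable def ltop : MvPolynomial (Fin 2) k := MvPolynomial.homogeneousComponent M Λ

/-- The top form of `N`, at the product of two points of the orbit of `(1,0)`. -/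
noncomputable def Ftop : MvPolynomial (Fin 2) k :=
  ∑ m ∈ N.support with m 0 + M * m 1 = e,
    MvPolynomial.C (MvPolynomial.coeff m N) *
      ((MvPolynomial.X 0 + MvPolynomial.X 1) ^ m 0 * ltop M Λ ^ m 1)

variable {M e Λ N}

theorem degree_two (m : Fin 2 →₀ ℕ) : m.degree = m 0 + m 1 := by
  rw [Finsupp.degree_eq_sum, Fin.sum_univ_two]

theorem Ftop_hom : (Ftop M e Λ N).IsHomogeneous e := by
  refine MvPolynomial.IsHomogeneous.sum _ _ _ fun m hm => ?_
  rw [mem_filter] at hm
  have h1 : (MvPolynomial.X 0 + MvPolynomial.X 1 : MvPolynomial (Fin 2) k).IsHomogeneous 1 :=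
    (MvPolynomial.isHomogeneous_X k 0).add (MvPolynomial.isHomogeneous_X k 1)
  have h2 := (MvPolynomial.isHomogeneous_C (Fin 2) (MvPolynomial.coeff m N)).mul
    ((h1.pow (m 0)).mul ((MvPolynomial.homogeneousComponent_isHomogeneous M Λ).pow (m 1)))
  have e2 : 0 + (1 * m 0 + M * m 1) = e := by rw [← hm.2]; ring
  rw [e2] at h2
  exact h2

theorem ltop_ne (hL : ∃ m ∈ Λ.support, m 0 + m 1 = M) : ltop M Λ ≠ 0 := by
  obtain ⟨m, hm, h1⟩ := hL
  intro h0
  have h2 := congrArg (MvPolynomial.coeff m) h0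
  rw [ltop, MvPolynomial.coeff_homogeneousComponent, if_pos (by rw [degree_two, h1]),
    MvPolynomial.coeff_zero] at h2
  exact (MvPolynomial.mem_support_iff.1 hm) h2

theorem ltop_zero (hN : LNor Λ) :
    MvPolynomial.aeval ![(Polynomial.X : Polynomial k), 0] (ltop M Λ) = 0 := by
  rw [aeval_two]
  refine sum_eq_zero fun m hm => ?_
  rw [MvPolynomial.mem_support_iff, ltop, MvPolynomial.coeff_homogeneousComponent] at hm
  have h1 : MvPolynomial.coeff m Λ ≠ 0 := fun h0 => hm (by rw [h0, ite_self])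
  rw [zero_pow (hN m (MvPolynomial.mem_support_iff.2 h1)).2, mul_zero, mul_zero]

theorem Ftop_ne (hL : ∃ m ∈ Λ.support, m 0 + m 1 = M) (hN : LNor Λ)
    (he : ∃ m ∈ N.support, m 0 + M * m 1 = e) : Ftop M e Λ N ≠ 0 := by
  classical
  set S := N.support.filter fun m => m 0 + M * m 1 = e with hS
  have hSne : S.Nonempty := by
    obtain ⟨m, hm, h1⟩ := he
    exact ⟨m, mem_filter.2 ⟨hm, h1⟩⟩
  obtain ⟨m₀, hm₀, hmin⟩ := S.exists_min_image (fun m => m 1) hSne
  set F' : MvPolynomial (Fin 2) k := ∑ m ∈ S, MvPolynomial.C (MvPolynomial.coeff m N) *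
      ((MvPolynomial.X 0 + MvPolynomial.X 1) ^ m 0 * ltop M Λ ^ (m 1 - m₀ 1)) with hF'
  have h1 : Ftop M e Λ N = ltop M Λ ^ m₀ 1 * F' := by
    rw [hF', mul_sum, Ftop]
    refine sum_congr rfl fun m hm => ?_
    have h2 : ltop M Λ ^ m 1 = ltop M Λ ^ m₀ 1 * ltop M Λ ^ (m 1 - m₀ 1) := by
      rw [← pow_add, Nat.add_sub_cancel' (hmin m hm)]
    rw [h2]
    ring
  rw [h1]
  refine mul_ne_zero (pow_ne_zero _ (ltop_ne hL)) fun h0 => ?_
  have h2 := congrArg (MvPolynomial.aeval ![(Polynomial.X : Polynomial k), 0]) h0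
  rw [hF', map_sum, map_zero, sum_eq_single_of_mem m₀ hm₀] at h2
  · rw [map_mul, map_mul, map_pow, map_pow, map_add, MvPolynomial.aeval_X, MvPolynomial.aeval_X,
      Nat.sub_self, pow_zero, mul_one, MvPolynomial.algHom_C] at h2
    have h3 : (![(Polynomial.X : Polynomial k), 0] : Fin 2 → Polynomial k) 0 +
        (![(Polynomial.X : Polynomial k), 0] : Fin 2 → Polynomial k) 1 = Polynomial.X := by
      change Polynomial.X + 0 = Polynomial.X
      rw [add_zero]
    rw [h3] at h2
    rcases mul_eq_zero.1 h2 with h4 | h4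
    · rw [Polynomial.algebraMap_eq, Polynomial.C_eq_zero] at h4
      exact (MvPolynomial.mem_support_iff.1 (mem_filter.1 hm₀).1) h4
    · exact pow_ne_zero _ Polynomial.X_ne_zero h4
  · intro m hm hne
    have h3 : m 1 ≠ m₀ 1 := by
      intro h4
      apply hne
      have h5 := (mem_filter.1 hm).2
      have h6 := (mem_filter.1 hm₀).2
      rw [h4] at h5
      ext i
      fin_cases i
      · change m 0 = m₀ 0
        omega
      · exact h4
    have h4 : m 1 - m₀ 1 ≠ 0 := by
      have := hmin m hm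
      omega
    rw [map_mul, map_mul, map_pow, map_pow, ltop_zero hN, zero_pow h4, mul_zero, mul_zero]

end Top

/-! ### The degree lemma -/

section Deg

variable {M e : ℕ} {Λ N : MvPolynomial (Fin 2) k}

/-- The top form of `N(A * B)`. -/
theorem Gd.top (hk : Ctx0 k v) {A B Y : Polynomial Ω} {δ : ℝ} (hw : 0 < w) (hδ : 0 ≤ δ) (hδw : δ ≤ w)
    (hA : Gd v w w A) (hB : Gd v w w B) (hY : Gd v w (M * w - δ) Y)
    (hM : ∀ m ∈ Λ.support, m 0 + m 1 ≤ M) (hN : ∀ m ∈ N.support, m 0 + M * m 1 ≤ e) :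
    Gd v w (e * w - δ) (MvPolynomial.aeval ![A + B, Y + MvPolynomial.aeval ![A, B] Λ] N -
      MvPolynomial.aeval ![A, B] (Ftop M e Λ N)) := by
  classical
  have hMw : 0 ≤ (M : ℝ) * w := by positivity
  set L := MvPolynomial.aeval ![A, B] (ltop M Λ) with hL
  have h1 : Gd v w (M * w) L := by
    refine Gd.aeval hk hA hB fun m hm => ?_
    rw [MvPolynomial.mem_support_iff, ltop, MvPolynomial.coeff_homogeneousComponent] at hm
    have h2 : m.degree = M := by
      by_contra h3
      exact hm (if_neg h3)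
    rw [degree_two] at h2
    rw [← h2]
    push_cast
    linarith
  have h2 : Gd v w (M * w - δ) (Y + MvPolynomial.aeval ![A, B] Λ - L) := by
    have e1 : Y + MvPolynomial.aeval ![A, B] Λ - L =
        Y + MvPolynomial.aeval ![A, B] (Λ - ltop M Λ) := by
      rw [hL, map_sub]
      ring
    rw [e1]
    refine hY.add (Gd.aeval hk hA hB fun m hm => ?_)
    have h3 : MvPolynomial.coeff m (Λ - ltop M Λ) ≠ 0 := MvPolynomial.mem_support_iff.1 hm
    rw [MvPolynomial.coeff_sub, ltop, MvPolynomial.coeff_homogeneousComponent] at h3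
    have h4 : m.degree ≠ M := fun h5 => h3 (by rw [if_pos h5, sub_self])
    rw [if_neg h4, sub_zero] at h3
    have h5 := hM m (MvPolynomial.mem_support_iff.2 h3)
    rw [degree_two] at h4
    have h6 : m 0 + m 1 + 1 ≤ M := by omega
    have h7 : ((m 0 : ℝ) + m 1 + 1) * w ≤ M * w :=
      mul_le_mul_of_nonneg_right (by exact_mod_cast h6) hw.le
    linarith
  have h3 : Gd v w (M * w) (Y + MvPolynomial.aeval ![A, B] Λ) := by
    have e1 : Y + MvPolynomial.aeval ![A, B] Λ = (Y + MvPolynomial.aeval ![A, B] Λ - L) + L := by ring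
    rw [e1]
    exact (h2.mono (by linarith)).add h1
  have e1 : MvPolynomial.aeval ![A, B] (Ftop M e Λ N) =
      ∑ m ∈ N.support with m 0 + M * m 1 = e,
        algebraMap k (Polynomial Ω) (MvPolynomial.coeff m N) * ((A + B) ^ m 0 * L ^ m 1) := by
    rw [Ftop, map_sum]
    refine sum_congr rfl fun m _ => ?_
    rw [map_mul, map_mul, map_pow, map_pow, map_add, MvPolynomial.aeval_X, MvPolynomial.aeval_X,
      MvPolynomial.algHom_C]
    rfl
  rw [e1, aeval_two, sum_filter, ← sum_sub_distrib]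
  refine Gd.sum _ _ fun m hm => ?_
  have hm1 := hN m hm
  have hAB := (hA.add hB).pow (m 0)
  split_ifs with h4
  · have e2 : algebraMap k (Polynomial Ω) (MvPolynomial.coeff m N) *
        ((A + B) ^ m 0 * (Y + MvPolynomial.aeval ![A, B] Λ) ^ m 1) -
        algebraMap k (Polynomial Ω) (MvPolynomial.coeff m N) * ((A + B) ^ m 0 * L ^ m 1) =
        algebraMap k (Polynomial Ω) (MvPolynomial.coeff m N) *
          ((A + B) ^ m 0 * ((Y + MvPolynomial.aeval ![A, B] Λ) ^ m 1 - L ^ m 1)) := by ring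
    rw [e2]
    refine ((Gd.const hk _).mul (hAB.mul (h3.pow_sub h1 h2 hδ (m 1)))).mono (le_of_eq ?_)
    rw [← h4]
    push_cast
    ring
  · rw [sub_zero]
    refine ((Gd.const hk _).mul (hAB.mul (h3.pow (m 1)))).mono ?_
    have h5 : m 0 + M * m 1 + 1 ≤ e := by omega
    have h6 : ((m 0 : ℝ) + M * m 1 + 1) * w ≤ e * w :=
      mul_le_mul_of_nonneg_right (by exact_mod_cast h5) hw.le
    linarith

theorem hom_two {F : MvPolynomial (Fin 2) k} (hF : F.IsHomogeneous e) :
    ∀ m ∈ F.support, m 0 + m 1 = e := fun m hm => by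
  have h1 := hF (MvPolynomial.mem_support_iff.1 hm)
  rw [Finsupp.weight_apply, Finsupp.sum_fintype _ _ (by simp), Fin.sum_univ_two] at h1
  simpa using h1

theorem coeff_hom_right {F : MvPolynomial (Fin 2) k} (hF : F.IsHomogeneous e) (x : Ω)
    {m : Fin 2 →₀ ℕ} (hm : m ∈ F.support) :
    (MvPolynomial.aeval ![Polynomial.C x, (Polynomial.X : Polynomial Ω)] F).coeff (m 1) =
      algebraMap k Ω (MvPolynomial.coeff m F) * x ^ m 0 := by
  have hd := hom_two hF
  rw [aeval_two, Polynomial.finsetSum_coeff, sum_eq_single_of_mem m hm]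
  · rw [IsScalarTower.algebraMap_apply k Ω (Polynomial Ω), Polynomial.algebraMap_eq,
      Polynomial.coeff_C_mul, ← Polynomial.C_pow, Polynomial.coeff_C_mul, Polynomial.coeff_X_pow,
      if_pos rfl, mul_one]
  · intro m' hm' hne
    have h1 : m 1 ≠ m' 1 := by
      intro h1
      apply hne
      have h2 := hd m hm
      have h3 := hd m' hm'
      ext i
      fin_cases i
      · change m' 0 = m 0
        omega
      · exact h1.symm
    rw [IsScalarTower.algebraMap_apply k Ω (Polynomial Ω), Polynomial.algebraMap_eq,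
      Polynomial.coeff_C_mul, ← Polynomial.C_pow, Polynomial.coeff_C_mul, Polynomial.coeff_X_pow,
      if_neg h1, mul_zero, mul_zero]

theorem coeff_hom_left {F : MvPolynomial (Fin 2) k} (hF : F.IsHomogeneous e) (x : Ω)
    {m : Fin 2 →₀ ℕ} (hm : m ∈ F.support) :
    (MvPolynomial.aeval ![(Polynomial.X : Polynomial Ω), Polynomial.C x] F).coeff (m 0) =
      algebraMap k Ω (MvPolynomial.coeff m F) * x ^ m 1 := by
  have hd := hom_two hF
  rw [aeval_two, Polynomial.finsetSum_coeff, sum_eq_single_of_mem m hm]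
  · rw [IsScalarTower.algebraMap_apply k Ω (Polynomial Ω), Polynomial.algebraMap_eq,
      Polynomial.coeff_C_mul, mul_comm (Polynomial.X ^ m 0), ← Polynomial.C_pow,
      Polynomial.coeff_C_mul, Polynomial.coeff_X_pow, if_pos rfl, mul_one]
  · intro m' hm' hne
    have h1 : m 0 ≠ m' 0 := by
      intro h1
      apply hne
      have h2 := hd m hm
      have h3 := hd m' hm'
      ext i
      fin_cases i
      · exact h1.symm
      · change m' 1 = m 1
        omega
    rw [IsScalarTower.algebraMap_apply k Ω (Polynomial Ω), Polynomial.algebraMap_eq,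
      Polynomial.coeff_C_mul, mul_comm (Polynomial.X ^ m' 0), ← Polynomial.C_pow,
      Polynomial.coeff_C_mul, Polynomial.coeff_X_pow, if_neg h1, mul_zero, mul_zero]

/-- A coefficient of the top form which is not null. -/
theorem le_of_coeff (hk : Ctx0 k v) {ν δ w : ℝ} {x : Ω} (hx : x ≠ 0) (hxv : v x = -w) {c : k}
    (hc : c ≠ 0) {n : ℕ} (hδ : 0 < δ) {y : Ω} (hy : v.Ge (-ν) y)
    (hd : v.Ge (-(n * w) + δ) (y - algebraMap k Ω c * x ^ n)) : n * w ≤ ν := by
  by_contra hlt
  rw [not_le] at hlt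
  have hc' : algebraMap k Ω c ≠ 0 := (map_ne_zero _).2 hc
  have h1 : algebraMap k Ω c * x ^ n ≠ 0 := mul_ne_zero hc' (pow_ne_zero _ hx)
  have h2 : v (algebraMap k Ω c * x ^ n) = -(n * w) := by
    rw [v.map_mul hc' (pow_ne_zero _ hx), hk.triv c hc, RVal.map_pow _ hx, hxv]
    ring
  have e : algebraMap k Ω c * x ^ n = y - (y - algebraMap k Ω c * x ^ n) := by ring
  have h3 : v.Ge (-(n * w) + min (n * w - ν) δ) (algebraMap k Ω c * x ^ n) := by
    rw [e]
    exact (hy.mono (by linarith [min_le_left (n * w - ν) δ])).sub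
      (hd.mono (by linarith [min_le_right (n * w - ν) δ]))
  have h4 := h3 h1
  rw [h2] at h4
  have : 0 < min (n * w - ν) δ := lt_min (by linarith) hδ
  linarith

/-- **(T1a)** The degree lemma, case (ga). -/
theorem deg_ga [Infinite k] (hk : Ctx0 k v) {w0 ν δ : ℝ} {x : Fin 2 → Ω} (hw0 : 0 < w0)
    (hx : x 0 ≠ 0) (hxv : v (x 0) = -w0) (hδ : 0 < δ) (hy : v.Ge (-(M * w0) + δ) (x 1))
    (hLN : LNor Λ) (hM : ∀ m ∈ Λ.support, m 0 + m 1 ≤ M) (hM' : ∃ m ∈ Λ.support, m 0 + m 1 = M)
    (hR : RBd v Λ x ν N) (hL : LBd v Λ x ν N) :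
    ∀ m ∈ N.support, wt w0 (M * w0) m ≤ 2 * ν := by
  classical
  intro m₁ hm₁
  have hne : N.support.Nonempty := ⟨m₁, hm₁⟩
  obtain ⟨m₂, hm₂, hmax⟩ := N.support.exists_max_image (fun m => m 0 + M * m 1) hne
  set e := m₂ 0 + M * m₂ 1 with he
  have hF := Ftop_ne (M := M) (e := e) (Λ := Λ) (N := N) hM' hLN ⟨m₂, hm₂, rfl⟩
  obtain ⟨m, hm⟩ := MvPolynomial.support_nonempty.2 hF
  have hFh := Ftop_hom (M := M) (e := e) (Λ := Λ) (N := N)
  have hme : m 0 + m 1 = e := hom_two hFh m hm
  have hfm := MvPolynomial.mem_support_iff.1 hm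
  set d := min δ w0 with hd
  have hd0 : 0 < d := lt_min hδ hw0
  have hxw : v.Ge (-w0) (x 0) := fun _ => hxv.ge
  have hCx : Gd v w0 w0 (Polynomial.C (x 0)) := Gd.C hxw
  have hY : Gd v w0 (M * w0 - d) (Polynomial.C (x 1)) :=
    Gd.C (hy.mono (by linarith [min_le_left δ w0]))
  -- right translates
  have h1 : (m 0 : ℝ) * w0 ≤ ν := by
    have h2 := Gd.top (M := M) (e := e) (Λ := Λ) (N := N) hk hw0 hd0.le (min_le_right δ w0) hCx
      Gd.X hY hM hmax
    set H := MvPolynomial.aeval ![Polynomial.C (x 0) + Polynomial.X,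
      Polynomial.C (x 1) + MvPolynomial.aeval ![Polynomial.C (x 0), Polynomial.X] Λ] N with hH
    have h3 : ∀ g : k, v.Ge (-ν) (H.eval (algebraMap k Ω g)) := fun g => by
      have h4 := hR ![g, 0]
      have e1 : H.eval (algebraMap k Ω g) =
          MvPolynomial.aeval (lawO Λ x (inO Ω ![g, 0])) N := by
        rw [hH, eval_aeval]
        congr 2
        rw [lawO]
        congr 1
        · simp [inO]
        · congr 1
          simp [inO, eval_aeval]
      rw [e1]
      exact h4
    have h4 := ge_coeff_of_eval hk h3 (m 1)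
    have h5 := h2 (m 1)
    rw [Polynomial.coeff_sub, coeff_hom_right hFh (x 0) hm] at h5
    refine le_of_coeff hk hx hxv hfm hd0 h4 (h5.mono (le_of_eq ?_))
    rw [← hme]
    push_cast
    ring
  -- left translates
  have h1' : (m 1 : ℝ) * w0 ≤ ν := by
    have h2 := Gd.top (M := M) (e := e) (Λ := Λ) (N := N) hk hw0 hd0.le (min_le_right δ w0) Gd.X
      hCx hY hM hmax
    set H := MvPolynomial.aeval ![Polynomial.X + Polynomial.C (x 0),
      Polynomial.C (x 1) + MvPolynomial.aeval ![Polynomial.X, Polynomial.C (x 0)] Λ] N with hH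
    have h3 : ∀ g : k, v.Ge (-ν) (H.eval (algebraMap k Ω g)) := fun g => by
      have h4 := hL ![g, 0]
      have e1 : H.eval (algebraMap k Ω g) =
          MvPolynomial.aeval (lawO Λ (inO Ω ![g, 0]) x) N := by
        rw [hH, eval_aeval]
        congr 2
        rw [lawO]
        congr 1
        · simp [inO]
        · congr 1
          simp [inO, eval_aeval]
      rw [e1]
      exact h4
    have h4 := ge_coeff_of_eval hk h3 (m 0)
    have h5 := h2 (m 0)
    rw [Polynomial.coeff_sub, coeff_hom_left hFh (x 0) hm] at h5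
    refine le_of_coeff hk hx hxv hfm hd0 h4 (h5.mono (le_of_eq ?_))
    rw [← hme]
    push_cast
    ring
  have h6 : (m₁ 0 : ℝ) + M * m₁ 1 ≤ e := by exact_mod_cast hmax m₁ hm₁
  have h7 : ((m₁ 0 : ℝ) + M * m₁ 1) * w0 ≤ e * w0 := mul_le_mul_of_nonneg_right h6 hw0.le
  have h8 : (e : ℝ) = m 0 + m 1 := by rw [← hme]; push_cast; ring
  rw [h8] at h7
  unfold wt
  linarith

end Deg

end Pool.Agent.TWLY76
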