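import Pool.Agent.Lib.TWLY76.Defs
import Pool.Agent.Lib.TWM.S3a

/-!
# TANK W, row CT, j = 1: the degree lemma, statements
-/

set_option autoImplicit false

open MvPolynomial

namespace Pool.Agent.TWLY76

open Pool.Agent.H15JM (RVal)
open Pool.Agent.D2 (Ctx0)

variable {k Ω : Type*} [Field k] [Field Ω] [Algebra k Ω]

/-- The product in `Ω²`. -/
noncomputable def lawO (Λ : MvPolynomial (Fin 2) k) (x g : Fin 2 → Ω) : Fin 2 → Ω :=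
  ![x 0 + g 0, x 1 + g 1 + aeval ![x 0, g 0] Λ]

/-- `k² → Ω²`. -/
def inO (Ω : Type*) [Field Ω] [Algebra k Ω] (g : Fin 2 → k) : Fin 2 → Ω := fun i => algebraMap k Ω (g i)

/-- The values of `N` at the right translates of `x` are bounded. -/
def RBd (v : RVal Ω) (Λ : MvPolynomial (Fin 2) k) (x : Fin 2 → Ω) (ν : ℝ)
    (N : MvPolynomial (Fin 2) k) : Prop :=
  ∀ g : Fin 2 → k, v.Ge (-ν) (aeval (lawO Λ x (inO Ω g)) N)

/-- The values of `N` at the left translates of `x` are bounded. -/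
def LBd (v : RVal Ω) (Λ : MvPolynomial (Fin 2) k) (x : Fin 2 → Ω) (ν : ℝ)
    (N : MvPolynomial (Fin 2) k) : Prop :=
  ∀ g : Fin 2 → k, v.Ge (-ν) (aeval (lawO Λ (inO Ω g) x) N)

/-- **(T1b)** degree lemma, case (be'): `w1 / w0` not an integer. -/
def DegBeStmt : Prop :=
  ∀ (k Ω : Type) [Field k] [IsAlgClosed k] [Field Ω] [Algebra k Ω] (p : ℕ) [Fact p.Prime] [CharP k p]
    (v : RVal Ω) (w0 w1 ν : ℝ) (Λ N : MvPolynomial (Fin 2) k) (x : Fin 2 → Ω),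
    Ctx0 k v → 0 < w0 → w0 < w1 → (∀ n : ℕ, w1 ≠ n * w0) → 0 ≤ ν →
    x 0 ≠ 0 → v (x 0) = -w0 → x 1 ≠ 0 → v (x 1) = -w1 → LNor Λ →
    (∀ m ∈ Λ.support, (m 0 + m 1 : ℝ) * w0 < w1) → RBd v Λ x ν N →
    ∀ m ∈ N.support, wt w0 w1 m ≤ 2 * ν

/-- **(T1a)** degree lemma, case (ga): `w1 = M w0`, `|x 1| < w1`, `Λ` of degree `M`. -/
def DegGaStmt : Prop :=
  ∀ (k Ω : Type) [Field k] [IsAlgClosed k] [Field Ω] [Algebra k Ω]
    (v : RVal Ω) (w0 ν : ℝ) (M : ℕ) (Λ N : MvPolynomial (Fin 2) k) (x : Fin 2 → Ω),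
    Ctx0 k v → 0 < w0 → 0 ≤ ν → x 0 ≠ 0 → v (x 0) = -w0 → (∃ δ : ℝ, 0 < δ ∧ v.Ge (-(M * w0) + δ) (x 1)) →
    LNor Λ → (∀ m ∈ Λ.support, m 0 + m 1 ≤ M) → (∃ m ∈ Λ.support, m 0 + m 1 = M) →
    RBd v Λ x ν N → LBd v Λ x ν N →
    ∀ m ∈ N.support, wt w0 (M * w0) m ≤ 2 * ν

end Pool.Agent.TWLY76
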